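import Pool.Agent.PFL.B11

/-!
# The pluriclosed flow on compact quotients of Lie groups by groups of holomorphic isometries

Let `G` be a real Lie group with a left-invariant complex structure `J` and a left-invariant
pluriclosed metric `ω₀`, and let `Γ` be any group acting on `G` by diffeomorphisms, freely, properly
discontinuously and with compact quotient `M = Γ\G`, preserving `J` and `ω₀` (for instance a
cocompact discrete subgroup acting by left translations; but `Γ` need not act by translations).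
Then the first singular time `T(ω₀)` of the pluriclosed flow on the compact complex manifold `M`
equals the cohomological bound `τ*(ω₀)`; both are infinite.

The definitions (for arbitrary smooth forms on `M`) are in `Pool/Agent/PFL/IDefs.lean`.
-/

open scoped Manifold

namespace Pool.Agent.Results.MP_c1ddea_gt.IsometryQuotient

open PFI

theorem result {E : Type*} [NormedAddCommGroup E] [NormedSpace ℝ E] [FiniteDimensional ℝ E]
    {G : Type*} [TopologicalSpace G] [ChartedSpace E G] [Group G]
    [LieGroup 𝓘(ℝ, E) (⊤ : ℕ∞) G]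
    (Γ : Type*) [Group Γ] [MulAction Γ G] [ProperlyDiscontinuousSMul Γ G]
    (_hfree : ∀ (γ : Γ) (x : G), γ • x = x → γ = 1)
    (hsmooth : ∀ γ : Γ, ContMDiff 𝓘(ℝ, E) 𝓘(ℝ, E) (⊤ : ℕ∞) (fun x : G => γ • x))
    [CompactSpace (Quotient (MulAction.orbitRel Γ G))]
    (J : Lie E G →ₗ[ℝ] Lie E G) (hJ : IsComplex (quot Γ) J)
    (ω₀ : Lie E G →ₗ[ℝ] Lie E G →ₗ[ℝ] ℝ) (hω₀ : IsPluriclosed (quot Γ) J (fun _ => ω₀)) :
    singTime (quot Γ) J (fun _ => ω₀) = tauStar (quot Γ) J (fun _ => ω₀) ∧
      tauStar (quot Γ) J (fun _ => ω₀) = ⊤ := by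
  have : CompleteSpace E := FiniteDimensional.complete ℝ E
  have h3 : minSmoothness ℝ 3 ≤ ((⊤ : ℕ∞) : WithTop ℕ∞) := minS_le 3
  have : LieGroup 𝓘(ℝ, E) (minSmoothness ℝ 3) G := LieGroup.of_le h3
  have hM := good_quot (E := E) (G := G) (Γ := Γ) hsmooth
  exact ⟨(singTime_top hM hJ hω₀).trans (tauStar_top hM hJ hω₀).symm, tauStar_top hM hJ hω₀⟩

end Pool.Agent.Results.MP_c1ddea_gt.IsometryQuotient
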